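import Pool.Agent.Lib.MP_b5021c_nt.IfaceK2

/-! Row BAS: the base of the structure theorem. -/

set_option autoImplicit false

namespace Pool.Agent.MP_b5021c_nt.Bas

open Polynomial Filter Topology Pool.Agent.B5
open scoped LaurentPolynomial

/-- Irreducible polynomials with constant term one stay irreducible in `ℤ[z,1/z]`. -/
theorem irr_toLaurent (p : ℤ[X]) (hp : Irreducible p) (h0 : p.coeff 0 = 1) :
    Irreducible (toLaurent p : LaurentPolynomial ℤ) := by
  have hpp : Prime p := hp.prime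
  have key : ∀ (c b' : ℤ[X]) (k : ℕ), X ^ k = c * b' → IsUnit (toLaurent b' : LaurentPolynomial ℤ) := by
    intro c b' k h
    have h2 : (toLaurent c : LaurentPolynomial ℤ) * toLaurent b' = LaurentPolynomial.T k := by
      rw [← map_mul, ← h, toLaurent_X_pow]
    exact isUnit_of_mul_isUnit_right (x := toLaurent c) (h2 ▸ LaurentPolynomial.isUnit_T _)
  constructor
  · intro hu
    obtain ⟨b, hb⟩ := hu.exists_right_inv
    obtain ⟨n, b', hb'⟩ := b.exists_T_pow
    have h1 : p * b' = X ^ n := by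
      apply toLaurent_injective (R := ℤ)
      rw [map_mul, hb', ← mul_assoc, hb, one_mul, toLaurent_X_pow]
    have h2 : p ∣ X := hpp.dvd_of_dvd_pow (Dvd.intro _ h1)
    obtain ⟨c, hc⟩ := h2
    have h3 : c.coeff 0 = 0 := by
      have := congrArg (fun q : ℤ[X] => q.coeff 0) hc
      simp only [coeff_X_zero, mul_coeff_zero, h0, one_mul] at this
      exact this.symm
    rcases (irreducible_X (R := ℤ)).isUnit_or_isUnit hc with h | h
    · exact hpp.not_isUnit h
    · obtain ⟨r, hr, hrc⟩ := Polynomial.isUnit_iff.mp h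
      rw [← hrc, coeff_C_zero] at h3
      rw [h3] at hr
      exact not_isUnit_zero hr
  · intro a b hab
    obtain ⟨m, a', ha'⟩ := a.exists_T_pow
    obtain ⟨n, b', hb'⟩ := b.exists_T_pow
    have h1 : p * X ^ (m + n) = a' * b' := by
      apply toLaurent_injective (R := ℤ)
      rw [map_mul, map_mul, toLaurent_X_pow, ha', hb', hab, Nat.cast_add, LaurentPolynomial.T_add]
      ring
    rcases hpp.dvd_or_dvd (Dvd.intro _ h1) with ⟨c, hc⟩ | ⟨c, hc⟩
    · right
      have h2 : X ^ (m + n) = c * b' := by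
        apply mul_left_cancel₀ hpp.ne_zero
        rw [h1, hc, mul_assoc]
      have h3 := key c b' _ h2
      rw [hb'] at h3
      exact isUnit_of_mul_isUnit_left h3
    · left
      have h2 : X ^ (m + n) = c * a' := by
        apply mul_left_cancel₀ hpp.ne_zero
        rw [h1, hc]; ring
      have h3 := key c a' _ h2
      rw [ha'] at h3
      exact isUnit_of_mul_isUnit_left h3

theorem reverse_reverse' (Q : ℤ[X]) (h : Q.coeff 0 ≠ 0) : Q.reverse.reverse = Q := by
  have ht : Q.natTrailingDegree = 0 := natTrailingDegree_eq_zero.2 (Or.inr h)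
  have hd : Q.reverse.natDegree = Q.natDegree := by
    rw [reverse_natDegree, ht, Nat.sub_zero]
  have h1 : Q.reverse.reverse = reflect Q.reverse.natDegree Q.reverse := rfl
  rw [h1, hd]
  exact reflect_reflect

theorem isUnit_of_reverse (a : ℤ[X]) (h0 : a.coeff 0 ≠ 0) (h : IsUnit a.reverse) : IsUnit a := by
  obtain ⟨r, hr, hrc⟩ := Polynomial.isUnit_iff.mp h
  rw [← reverse_reverse' a h0, ← hrc, reverse_C]
  exact Polynomial.isUnit_C.mpr hr

/-- The reverse of an irreducible polynomial with nonzero constant term is irreducible. -/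
theorem irr_reverse (p : ℤ[X]) (hp : Irreducible p) (h0 : p.coeff 0 ≠ 0) : Irreducible p.reverse := by
  have hc0 : p.reverse.coeff 0 ≠ 0 := by
    rw [coeff_zero_reverse]
    exact leadingCoeff_ne_zero.mpr hp.ne_zero
  constructor
  · intro hu
    exact hp.not_isUnit (isUnit_of_reverse p h0 hu)
  · intro a b hab
    have ha : a.coeff 0 ≠ 0 := by
      intro h; apply hc0; rw [hab, mul_coeff_zero, h, zero_mul]
    have hb : b.coeff 0 ≠ 0 := by
      intro h; apply hc0; rw [hab, mul_coeff_zero, h, mul_zero]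
    have h1 : p = a.reverse * b.reverse := by
      rw [← reverse_mul_of_domain, ← hab, reverse_reverse' p h0]
    rcases hp.isUnit_or_isUnit h1 with h | h
    · exact Or.inl (isUnit_of_reverse a ha h)
    · exact Or.inr (isUnit_of_reverse b hb h)

theorem bas (h1 : PsqS) (h2 : HatS) : BasS := by
  intro θ hθ hne
  obtain ⟨hθ1, hint, -⟩ := id hθ
  have hone := h1 θ hθ
  set μ : ℤ[X] := minpoly ℤ θ with hμ
  have hθ0 : θ ≠ 0 := by linarith
  have hθc : (θ : ℂ) ≠ 0 := by exact_mod_cast hθ0
  have hirr : Irreducible μ := minpoly.irreducible hint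
  have hμ0 : μ.coeff 0 ≠ 0 := by
    intro h
    obtain ⟨q, hq⟩ := X_dvd_iff.mpr h
    have h3 : aeval θ μ = 0 := minpoly.aeval ℤ θ
    rcases hirr.isUnit_or_isUnit hq with hu | hu
    · exact (irreducible_X (R := ℤ)).not_isUnit hu
    · obtain ⟨r, hr, hrc⟩ := Polynomial.isUnit_iff.mp hu
      rw [hq, ← hrc, map_mul, aeval_X, aeval_C] at h3
      rcases mul_eq_zero.mp h3 with h4 | h4
      · exact hθ0 h4
      · have h5 : r = 0 := by
          have : ((r : ℤ) : ℝ) = 0 := by simpa using h4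
          exact_mod_cast this
        rw [h5] at hr
        exact not_isUnit_zero hr
  set Q : ℤ[X] := μ.reverse with hQ
  have hQirr : Irreducible Q := irr_reverse μ hirr hμ0
  obtain ⟨-, hQ0, g, hg, hgz⟩ := id hone
  have hpv : ∀ z : ℂ, pv Q z = (1 - θ * z) * g.eval z := by
    intro z
    have h3 : pv Q z = (Q.map (Int.castRingHom ℂ)).eval z := by
      rw [eval_map]; rfl
    rw [h3, hg]
    simp
  set D0 : Finset Empty → ℤ[X] := fun _ => Q with hD0
  have hfree : PolyFree D0 := by
    intro z w hz _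
    have h3 : mv D0 z w = pv Q z := by
      unfold mv
      rw [Fintype.sum_unique]
      have h4 : ∏ i ∈ (default : Finset Empty), w i = 1 :=
        Finset.prod_eq_one fun i _ => i.elim
      rw [h4, mul_one]
    rw [h3, hpv]
    refine mul_ne_zero ?_ (hgz z hz.le)
    intro h4
    have h5 : (θ : ℂ) * z = 1 := by linear_combination -h4
    have h6 : ‖(θ : ℂ) * z‖ = 1 := by rw [h5, norm_one]
    rw [norm_mul, hz, mul_one, Complex.norm_real, Real.norm_eq_abs, abs_of_pos (by linarith)] at h6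
    linarith
  have hA : Irreducible (toA D0) := by
    have h3 : toA D0 = (AddMonoidAlgebra.uniqueRingEquiv (R := R) (Empty → ℤ)).symm (toLaurent Q) := by
      rw [AddMonoidAlgebra.uniqueRingEquiv_symm_apply]
      unfold toA
      rw [Fintype.sum_unique]
      congr 1
    rw [h3]
    exact (MulEquiv.irreducible_iff
      (AddMonoidAlgebra.uniqueRingEquiv (R := R) (Empty → ℤ)).symm).mpr (irr_toLaurent Q hQirr hQ0)
  have hspan : SpanK D0 := by
    unfold SpanK
    exact Subsingleton.elim _ _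
  have hnu : ¬ UniK D0 := by
    rintro ⟨N, ε, hε, hN, hU⟩
    have h3 : Q = C ε * Q.reflect N := hU ∅
    have hNQ : Q.natDegree ≤ N := hN ∅
    have : Invertible ((θ : ℂ)) := invertibleOfNonzero hθc
    have : Invertible ((θ : ℂ)⁻¹) := invertibleOfNonzero (inv_ne_zero hθc)
    -- the value at 1/theta
    have h4 : pv Q ((θ : ℂ)⁻¹) = 0 := by
      rw [hpv, mul_inv_cancel₀ hθc]; simp
    have h5 := eval₂_reflect_mul_pow (Int.castRingHom ℂ) (θ : ℂ) N Q hNQ
    rw [invOf_eq_inv] at h5
    have h6 : pv (Q.reflect N) ((θ : ℂ)⁻¹) = 0 := by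
      have h7 : pv Q ((θ : ℂ)⁻¹) = (ε : ℂ) * pv (Q.reflect N) ((θ : ℂ)⁻¹) := by
        conv_lhs => rw [h3]
        unfold pv
        rw [map_mul, aeval_C]
        simp
      rw [h4] at h7
      rcases mul_eq_zero.mp h7.symm with h8 | h8
      · exfalso
        rcases hε with rfl | rfl <;> simp at h8
      · exact h8
    have h7 : pv Q (θ : ℂ) = 0 := by
      have h8 : pv Q (θ : ℂ) = eval₂ (Int.castRingHom ℂ) (θ : ℂ) Q := rfl
      have h9 : pv (Q.reflect N) ((θ : ℂ)⁻¹) = eval₂ (Int.castRingHom ℂ) ((θ : ℂ)⁻¹) (Q.reflect N) := rfl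
      rw [h8, ← h5, ← h9, h6, zero_mul]
    have h8 := eval₂_reverse_mul_pow (Int.castRingHom ℂ) ((θ : ℂ)⁻¹) μ
    rw [invOf_eq_inv, inv_inv] at h8
    apply hne
    have h9 : pv μ ((θ : ℂ)⁻¹) = eval₂ (Int.castRingHom ℂ) ((θ : ℂ)⁻¹) μ := rfl
    have h10 : pv Q (θ : ℂ) = eval₂ (Int.castRingHom ℂ) (θ : ℂ) μ.reverse := rfl
    rw [h9, ← h8, ← h10, h7, zero_mul]
  exact ⟨_, h2 Empty D0 θ hfree hone hA hspan hnu⟩

end Pool.Agent.MP_b5021c_nt.Bas
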