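import Pool.Agent.Lib.MP_b5021c_nt.IfaceK1

namespace Pool.Agent.MP_b5021c_nt.Bla

open Polynomial Filter Topology Metric

theorem itd_poly (p : ℂ[X]) (n : ℕ) (x : ℂ) :
    iteratedDeriv n (fun z => p.eval z) x = (derivative^[n] p).eval x := by
  induction n generalizing p x with
  | zero => simp
  | succ n ih =>
    rw [iteratedDeriv_succ']
    have h1 : deriv (fun z => p.eval z) = fun z => p.derivative.eval z := by
      ext z; exact Polynomial.deriv p
    rw [h1, ih, Function.iterate_succ_apply]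

noncomputable def tc (f : ℂ → ℂ) (n : ℕ) : ℂ := (n.factorial : ℂ)⁻¹ * iteratedDeriv n f 0

theorem tc_poly (p : ℂ[X]) (n : ℕ) : tc (fun z => p.eval z) n = p.coeff n := by
  unfold tc
  rw [itd_poly, ← Polynomial.coeff_zero_eq_eval_zero, Polynomial.coeff_iterate_derivative]
  have h1 : ((n.factorial : ℕ) : ℂ) ≠ 0 := by exact_mod_cast Nat.factorial_ne_zero n
  simp only [zero_add, nsmul_eq_mul, Nat.descFactorial_self]
  field_simp

theorem tc_mul {f g : ℂ → ℂ} (hf : AnalyticAt ℂ f 0) (hg : AnalyticAt ℂ g 0) (n : ℕ) :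
    tc (fun z => f z * g z) n = ∑ x ∈ Finset.HasAntidiagonal.antidiagonal n, tc f x.1 * tc g x.2 := by
  rw [Finset.Nat.sum_antidiagonal_eq_sum_range_succ (fun i j => tc f i * tc g j) n]
  unfold tc
  rw [iteratedDeriv_fun_mul hf.contDiffAt hg.contDiffAt, Finset.mul_sum]
  refine Finset.sum_congr rfl fun i hi => ?_
  have hi' : i ≤ n := Nat.lt_succ_iff.mp (Finset.mem_range.mp hi)
  have h1 : (n.factorial : ℂ) = n.choose i * i.factorial * (n - i).factorial := by
    exact_mod_cast (Nat.choose_mul_factorial_mul_factorial hi').symm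
  have h2 : (n.choose i : ℂ) ≠ 0 := by exact_mod_cast (Nat.choose_pos hi').ne'
  have h3 : (i.factorial : ℂ) ≠ 0 := by exact_mod_cast Nat.factorial_ne_zero i
  have h4 : ((n - i).factorial : ℂ) ≠ 0 := by exact_mod_cast Nat.factorial_ne_zero (n - i)
  rw [h1]
  field_simp

/-- Quotients of polynomials without poles in the closed disc. -/
theorem quot (D N : ℂ[X]) (K : ℝ) (hD : ∀ z : ℂ, ‖z‖ ≤ 1 → D.eval z ≠ 0)
    (hK : ∀ z : ℂ, ‖z‖ = 1 → ‖N.eval z‖ ≤ K * ‖D.eval z‖) :
    ∃ A : PowerSeries ℂ, A * (D : PowerSeries ℂ) = (N : PowerSeries ℂ) ∧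
      (∀ j, ‖PowerSeries.coeff j A‖ ≤ K) ∧
      (∀ z : ℂ, ‖z‖ < 1 → ‖∑' j, PowerSeries.coeff j A * z ^ j‖ ≤ K) := by
  set F : ℂ → ℂ := fun z => N.eval z / D.eval z with hF
  have hN0 : Differentiable ℂ (fun z => N.eval z) := N.differentiable
  have hD0 : Differentiable ℂ (fun z => D.eval z) := D.differentiable
  have hFd : ∀ z : ℂ, ‖z‖ ≤ 1 → DifferentiableAt ℂ F z := fun z hz =>
    (hN0 z).div (hD0 z) (hD z hz)
  have hdc : DiffContOnCl ℂ F (ball 0 1) := by
    refine DifferentiableOn.diffContOnCl ?_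
    rw [closure_ball (0 : ℂ) one_ne_zero]
    intro z hz
    exact (hFd z (by simpa using hz)).differentiableWithinAt
  have hs : ∀ z ∈ sphere (0 : ℂ) 1, ‖F z‖ ≤ K := by
    intro z hz
    have hz1 : ‖z‖ = 1 := by simpa using hz
    rw [hF]
    simp only [norm_div]
    rw [div_le_iff₀ (norm_pos_iff.mpr (hD z hz1.le))]
    exact hK z hz1
  have hb : ∀ z : ℂ, ‖z‖ ≤ 1 → ‖F z‖ ≤ K := by
    intro z hz
    refine Complex.norm_le_of_forall_mem_frontier_norm_le isBounded_ball hdc ?_ (z := z) ?_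
    · rw [frontier_ball (0 : ℂ) one_ne_zero]; exact hs
    · rw [closure_ball (0 : ℂ) one_ne_zero]; simpa using hz
  have hFa : AnalyticAt ℂ F 0 := by
    refine (hdc.differentiableOn.analyticAt ?_)
    exact ball_mem_nhds 0 one_pos
  have hDa : AnalyticAt ℂ (fun z => D.eval z) 0 := hD0.analyticAt 0
  refine ⟨PowerSeries.mk (tc F), ?_, ?_, ?_⟩
  · ext n
    rw [PowerSeries.coeff_mul, Polynomial.coeff_coe]
    have h1 : ∀ x ∈ Finset.HasAntidiagonal.antidiagonal n, PowerSeries.coeff x.1 (PowerSeries.mk (tc F)) *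
        PowerSeries.coeff x.2 (D : PowerSeries ℂ) = tc F x.1 * tc (fun z => D.eval z) x.2 := by
      intro x _
      rw [PowerSeries.coeff_mk, Polynomial.coeff_coe, tc_poly]
    rw [Finset.sum_congr rfl h1, ← tc_mul hFa hDa, ← tc_poly]
    unfold tc
    congr 1
    refine Filter.EventuallyEq.iteratedDeriv_eq n ?_
    filter_upwards [ball_mem_nhds (0 : ℂ) one_pos] with z hz
    have hz1 : ‖z‖ < 1 := by simpa using hz
    rw [hF]
    exact div_mul_cancel₀ _ (hD z hz1.le)
  · intro j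
    rw [PowerSeries.coeff_mk]
    have h1 := Complex.norm_iteratedDeriv_le_of_forall_mem_sphere_norm_le j one_pos hdc hs
    have h3 : (0 : ℝ) < j.factorial := by exact_mod_cast Nat.factorial_pos j
    unfold tc
    rw [norm_mul, norm_inv, Complex.norm_natCast]
    rw [one_pow, div_one] at h1
    calc ((j.factorial : ℝ))⁻¹ * ‖iteratedDeriv j F 0‖
        ≤ ((j.factorial : ℝ))⁻¹ * (j.factorial * K) := by gcongr
      _ = K := by field_simp
  · intro z hz
    have h1 := Complex.taylorSeries_eq_on_ball' (c := 0) (r := 1) (z := z)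
      (by simpa using hz) hdc.differentiableOn
    simp only [sub_zero] at h1
    simp only [PowerSeries.coeff_mk, tc]
    rw [h1]
    exact hb z hz.le

theorem bla : BlaS := by
  intro E Q K hnz hcirc hQ
  have hE0 : E ≠ 0 := by
    rintro rfl
    exact hcirc 1 (by simp) (by simp)
  by_cases h0 : nz E = 0
  · have hD : ∀ z : ℂ, ‖z‖ ≤ 1 → E.eval z ≠ 0 := by
      intro z hz h
      rcases hz.lt_or_eq with h1 | h1
      · have hz2 : z ∈ E.roots.filter (fun z => ‖z‖ < 1) := by
          rw [Multiset.mem_filter]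
          exact ⟨(Polynomial.mem_roots hE0).mpr h, h1⟩
        unfold nz at h0
        rw [Multiset.card_eq_zero] at h0
        rw [h0] at hz2
        exact absurd hz2 (Multiset.notMem_zero z)
      · exact hcirc z h1 h
    obtain ⟨A, hA1, hA2, hA3⟩ := quot E Q K hD hQ
    exact ⟨A, 1, by rw [hA1, one_mul], hA2, hA3, Or.inl rfl⟩
  · have h1 : nz E = 1 := by omega
    unfold nz at h1
    rw [Multiset.card_eq_one] at h1
    obtain ⟨ζ, hζ⟩ := h1
    have hζm : ζ ∈ E.roots.filter (fun z => ‖z‖ < 1) := by rw [hζ]; simp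
    rw [Multiset.mem_filter] at hζm
    obtain ⟨hζr, hζ1⟩ := hζm
    have hroot : E.IsRoot ζ := (Polynomial.mem_roots hE0).mp hζr
    obtain ⟨E1, hE1⟩ := Polynomial.dvd_iff_isRoot.mpr hroot
    have hE10 : E1 ≠ 0 := by
      rintro rfl
      exact hE0 (by rw [hE1, mul_zero])
    have hroots : E.roots = ζ ::ₘ E1.roots := by
      rw [hE1, Polynomial.roots_mul (by rw [← hE1]; exact hE0), Polynomial.roots_X_sub_C]
      rfl
    have hE1r : ∀ z : ℂ, ‖z‖ ≤ 1 → E1.eval z ≠ 0 := by
      intro z hz h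
      rcases hz.lt_or_eq with h1 | h1
      · have hz1 : z ∈ E1.roots.filter (fun z => ‖z‖ < 1) := by
          rw [Multiset.mem_filter]
          exact ⟨(Polynomial.mem_roots hE10).mpr h, h1⟩
        rw [hroots, Multiset.filter_cons_of_pos (p := fun z : ℂ => ‖z‖ < 1) _ hζ1] at hζ
        have hz2 : E1.roots.filter (fun z => ‖z‖ < 1) = 0 := by
          have := congrArg Multiset.card hζ
          simpa using this
        rw [hz2] at hz1
        exact absurd hz1 (Multiset.notMem_zero z)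
      · apply hcirc z h1
        rw [hE1, Polynomial.eval_mul, h, mul_zero]
    set ζc : ℂ := starRingEnd ℂ ζ with hζc
    have hnc : ‖ζc‖ = ‖ζ‖ := by rw [hζc, Complex.norm_conj]
    have hB : ∀ z : ℂ, ‖z‖ ≤ 1 → (1 - C ζc * X : ℂ[X]).eval z ≠ 0 := by
      intro z hz h
      simp only [eval_sub, eval_one, eval_mul, eval_C, eval_X] at h
      have h2 : ζc * z = 1 := by linear_combination -h
      have h3 : ‖ζc * z‖ = 1 := by rw [h2, norm_one]
      rw [norm_mul, hnc] at h3
      nlinarith [norm_nonneg z, norm_nonneg ζ]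
    have hBn : ∀ z : ℂ, ‖z‖ = 1 → ‖(1 - C ζc * X : ℂ[X]).eval z‖ = ‖z - ζ‖ := by
      intro z hz
      simp only [eval_sub, eval_one, eval_mul, eval_C, eval_X]
      have hzz : z * starRingEnd ℂ z = 1 := by
        rw [Complex.mul_conj, Complex.normSq_eq_norm_sq, hz]; simp
      have h2 : (1 - ζc * z : ℂ) = z * starRingEnd ℂ (z - ζ) := by
        rw [map_sub, mul_sub, hzz, hζc]; ring
      rw [h2, norm_mul, hz, one_mul, Complex.norm_conj]
    have hD : ∀ z : ℂ, ‖z‖ ≤ 1 → ((1 - C ζc * X) * E1 : ℂ[X]).eval z ≠ 0 := by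
      intro z hz
      rw [Polynomial.eval_mul]
      exact mul_ne_zero (hB z hz) (hE1r z hz)
    have hKK : ∀ z : ℂ, ‖z‖ = 1 → ‖Q.eval z‖ ≤ K * ‖((1 - C ζc * X) * E1 : ℂ[X]).eval z‖ := by
      intro z hz
      have h2 := hQ z hz
      rw [hE1, Polynomial.eval_mul, norm_mul] at h2
      rw [Polynomial.eval_mul, norm_mul, hBn z hz]
      simpa using h2
    obtain ⟨A, hA1, hA2, hA3⟩ := quot _ Q K hD hKK
    have hu : (1 - PowerSeries.C ζc * PowerSeries.X : PowerSeries ℂ) *
        (PowerSeries.mk fun n => ζc ^ n) = 1 := by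
      ext n
      cases n with
      | zero => simp [sub_mul]
      | succ n =>
        rw [sub_mul, one_mul, map_sub, mul_assoc, PowerSeries.coeff_C_mul, PowerSeries.coeff_succ_X_mul,
          PowerSeries.coeff_mk, PowerSeries.coeff_mk, PowerSeries.coeff_one]
        simp [pow_succ, mul_comm]
    refine ⟨A, (PowerSeries.X - PowerSeries.C ζ) * (PowerSeries.mk fun n => ζc ^ n), ?_, hA2, hA3,
      Or.inr ⟨ζ, hζ1.le, ?_⟩⟩
    · rw [← hA1, hE1]
      simp only [Polynomial.coe_mul, Polynomial.coe_sub, Polynomial.coe_X, Polynomial.coe_C,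
        Polynomial.coe_one]
      linear_combination (-(PowerSeries.X - PowerSeries.C ζ) * A * (E1 : PowerSeries ℂ)) * hu
    · linear_combination (PowerSeries.X - PowerSeries.C ζ) * hu

end Pool.Agent.MP_b5021c_nt.Bla
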